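import Mathlib

set_option autoImplicit false

/-!
# Cross-intersecting sequences of pairs of projective subspaces
-/

namespace Pool.Agent.Results.MP_59f694_co.ProjectivePairs

open Module

universe u v

/-- the pairs whose first member has dimension `a` -/
theorem layer {F : Type u} [Field F] {E : Type v} [AddCommGroup E] [Module F E]
    [Module.Finite F E] (a : ℕ) {ι : Type} [Fintype ι] [LinearOrder ι]
    (U V : ι → Submodule F E) (hU : ∀ i, finrank F (U i) = a)
    (h1 : ∀ i, U i ⊓ V i = ⊥) (h2 : ∀ i j, i < j → U i ⊓ V j ≠ ⊥) :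
    Fintype.card ι ≤ (finrank F E).choose a := by
  have hV : ∀ i, ∃ V' : Submodule F E, V i ≤ V' ∧ IsCompl V' (U i) := fun i =>
    (disjoint_iff.2 (h1 i)).symm.exists_isCompl
  choose V' hV' hc using hV
  let b : ∀ i, Basis (Fin a) F (U i) := fun i => (finBasis F (U i)).reindex (finCongr (hU i))
  let q : ∀ i, E →ₗ[F] (U i) := fun i => (U i).projectionOnto (V' i) (hc i).symm
  let f : ∀ i, E [⋀^Fin a]→ₗ[F] F := fun i => (b i).det.compLinearMap (q i)
  let u : ∀ i, Fin a → E := fun i k => (b i k : E)
  have hfii : ∀ i, f i (u i) = 1 := by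
    intro i
    have : (fun k => q i (u i k)) = b i := by
      funext k
      exact Submodule.projectionOnto_apply_left (hc i).symm (b i k)
    change (b i).det (fun k => q i (u i k)) = 1
    rw [this, Basis.det_self]
  have hfij : ∀ i j, i < j → f j (u i) = 0 := by
    intro i j hij
    change (b j).det (fun k => q j (u i k)) = 0
    refine AlternatingMap.map_linearDependent _ _ ?_
    intro hli
    apply h2 i j hij
    rw [Submodule.eq_bot_iff]
    rintro x ⟨hx1, hx2⟩
    have hqx : q j x = 0 := (Submodule.projectionOnto_apply_eq_zero_iff (hc j).symm).2 (hV' j hx2)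
    have hx3 : x = ∑ k, (b i).repr ⟨x, hx1⟩ k • u i k := by
      have h3 := congrArg (U i).subtype ((b i).sum_repr ⟨x, hx1⟩)
      rw [map_sum] at h3
      simp only [map_smul] at h3
      exact h3.symm
    have hzero : ∑ k, (b i).repr ⟨x, hx1⟩ k • q j (u i k) = 0 := by
      rw [← hqx]
      conv_rhs => rw [hx3]
      simp only [map_sum, map_smul]
    have hall := Fintype.linearIndependent_iff.1 hli _ hzero
    rw [hx3]
    exact Finset.sum_eq_zero fun k _ => by rw [hall k, zero_smul]
  let x : ι → (⋀[F]^a E) := fun i => exteriorPower.ιMulti F a (u i)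
  have hli : LinearIndependent F x := by
    rw [Fintype.linearIndependent_iff]
    intro g hg
    have hpair : ∀ j, ∑ i, g i * f j (u i) = 0 := by
      intro j
      have := congrArg (exteriorPower.alternatingMapLinearEquiv (f j)) hg
      rw [map_sum, map_zero] at this
      rw [← this]
      refine Finset.sum_congr rfl fun i _ => ?_
      rw [map_smul, exteriorPower.alternatingMapLinearEquiv_apply_ιMulti, smul_eq_mul]
    intro j
    induction j using WellFoundedGT.induction with
    | ind j ih =>
      have h := hpair j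
      rw [Finset.sum_eq_single j] at h
      · rwa [hfii, mul_one] at h
      · intro i _ hij
        rcases lt_or_gt_of_ne hij with h' | h'
        · rw [hfij i j h', mul_zero]
        · rw [ih i h', zero_mul]
      · intro h'
        exact absurd (Finset.mem_univ _) h'
  have := hli.fintype_card_le_finrank
  rwa [exteriorPower.finrank_eq] at this

/-- **MP_59f694_co, Q1.** A cross-intersecting sequence of pairs of nonempty projective subspaces of
`ℙ(F^{n+1})` has length at most `2^{n+1} - 2`, over every field and for every `n`. -/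
theorem result (F : Type u) [Field F] (n m : ℕ) (U V : Fin m → Submodule F (Fin (n + 1) → F))
    (hU : ∀ i, U i ≠ ⊥) (hV : ∀ i, V i ≠ ⊥) (h1 : ∀ i, U i ⊓ V i = ⊥)
    (h2 : ∀ i j, i < j → U i ⊓ V j ≠ ⊥) : m ≤ 2 ^ (n + 1) - 2 := by
  have hdim : finrank F (Fin (n + 1) → F) = n + 1 := by simp
  have hrange : ∀ i ∈ (Finset.univ : Finset (Fin m)), finrank F (U i) ∈ Finset.Icc 1 n := by
    intro i _
    rw [Finset.mem_Icc]
    constructor
    · rw [Nat.one_le_iff_ne_zero]
      intro h
      exact hU i (Submodule.finrank_eq_zero.1 h)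
    · have h3 : finrank F (U i) + finrank F (V i) ≤ n + 1 := by
        rw [← Submodule.finrank_sup_add_finrank_inf_eq, h1 i, finrank_bot, add_zero]
        exact (Submodule.finrank_le _).trans hdim.le
      have h4 : finrank F (V i) ≠ 0 := fun h => hV i (Submodule.finrank_eq_zero.1 h)
      omega
  have hcard := Finset.card_eq_sum_card_fiberwise hrange
  rw [Finset.card_univ, Fintype.card_fin] at hcard
  have hle : ∀ a ∈ Finset.Icc 1 n,
      (Finset.univ.filter fun i => finrank F (U i) = a).card ≤ (n + 1).choose a := by
    intro a _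
    have := layer (F := F) a (ι := {i : Fin m // finrank F (U i) = a}) (fun i => U i.1)
      (fun i => V i.1) (fun i => i.2) (fun i => h1 i.1) (fun i j hij => h2 i.1 j.1 hij)
    rwa [hdim, Fintype.card_subtype] at this
  have hsum : ∑ a ∈ Finset.Icc 1 n, (n + 1).choose a = 2 ^ (n + 1) - 2 := by
    have h := Nat.sum_range_choose (n + 1)
    rw [Finset.sum_range_succ, Finset.sum_range_succ', Nat.choose_self, Nat.choose_zero_right] at h
    have h' : ∑ a ∈ Finset.Icc 1 n, (n + 1).choose a
        = ∑ k ∈ Finset.range n, (n + 1).choose (k + 1) := by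
      rw [Finset.range_eq_Ico, Finset.sum_Ico_add' (fun k => (n + 1).choose k) 0 n 1]
      rfl
    omega
  calc m = _ := hcard
    _ ≤ ∑ a ∈ Finset.Icc 1 n, (n + 1).choose a := Finset.sum_le_sum hle
    _ = 2 ^ (n + 1) - 2 := hsum

end Pool.Agent.Results.MP_59f694_co.ProjectivePairs
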